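import Pool.Agent.Y691.CG.KFF
import Pool.Agent.Y481.Sep

/-!
# CB3-G-TFB: bounds of the traces by bounds of the kernels

`tfb : Pool.Agent.Y472.S_TFB`.
-/

set_option autoImplicit false
set_option maxHeartbeats 400000

namespace Pool.Agent.Y691.CG

open Finset MeasureTheory
open Pool.Agent.W711.HT Pool.Agent.Y472
open Pool.Agent.Y481 (itI wts cw Sep LI itG itG_sep LI_lin itI_eq)
open scoped Real

/-- bound of the path integral, every `N ≥ 1` -/
theorem LI_bd (a : ℤ) : ∃ D : ℝ, 0 < D ∧ ∀ N : ℕ, 1 ≤ N → ∀ (f : ℂ → ℂ) (B : ℝ), Continuous f →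
    (∀ x y : ℝ, |x| ≤ π → |y| ≤ 1 / N → ‖f (x + y * Complex.I)‖ ≤ B) → ‖LI a N f‖ ≤ D * B := by
  set K : ℝ := Real.exp (|(a : ℝ)| / 2) * (2 * Real.exp 1) with hK
  have hK0 : 0 < K := by positivity
  refine ⟨K * (2 + 2 * π), by positivity, ?_⟩
  intro N hN f B hf hB
  have hN1 : (1:ℝ) ≤ N := by exact_mod_cast hN
  have hN0 : (0:ℝ) < N := by linarith
  have hh0 : (0:ℝ) < 1 / N := by positivity
  have hh1 : (1:ℝ) / N ≤ 1 := by rw [div_le_one hN0]; exact hN1
  have hpi := Real.pi_pos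
  have hB0 : 0 ≤ B := (norm_nonneg _).trans (hB 0 0 (by simpa using hpi.le) (by simp))
  have key : ∀ (U V W : ℂ), ‖U‖ ≤ Real.exp (|(a : ℝ)| / 2) → ‖V‖ ≤ B →
      ‖W‖ ≤ 2 * Real.exp 1 → ‖U * V * W‖ ≤ K * B := by
    intro U V W hU hV hW
    rw [norm_mul, norm_mul]
    calc ‖U‖ * ‖V‖ * ‖W‖ ≤ Real.exp (|(a : ℝ)| / 2) * B * (2 * Real.exp 1) := by gcongr
      _ = K * B := by rw [hK]; ring
  have v1 : ‖∫ y in (0:ℝ)..(1 / N), Ea a N (-π + y * Complex.I) *
        f (-π + y * Complex.I) * kr N (-π + y * Complex.I)‖ ≤ K * B * |(1 / N : ℝ) - 0| := by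
    refine intervalIntegral.norm_integral_le_of_norm_le_const ?_
    intro y hy
    rw [Set.uIoc_of_le hh0.le] at hy
    have hy1 : |y| ≤ 1 / N := by rw [abs_of_pos hy.1]; exact hy.2
    refine key _ _ _ ?_ ?_ (norm_kr_left y (hy1.trans hh1))
    · have := norm_Ea_le a hN (x := -π) (y := y) (by rw [abs_neg, abs_of_pos hpi]) hy1
      simpa using this
    · have := hB (-π) y (by rw [abs_neg, abs_of_pos hpi]) hy1
      simpa using this
  have v2 : ‖∫ y in (0:ℝ)..(1 / N), Ea a N (π + y * Complex.I) *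
        f (π + y * Complex.I) * kr N (π + y * Complex.I)‖ ≤ K * B * |(1 / N : ℝ) - 0| := by
    refine intervalIntegral.norm_integral_le_of_norm_le_const ?_
    intro y hy
    rw [Set.uIoc_of_le hh0.le] at hy
    have hy1 : |y| ≤ 1 / N := by rw [abs_of_pos hy.1]; exact hy.2
    refine key _ _ _ ?_ ?_ (norm_kr_right y (hy1.trans hh1))
    · exact norm_Ea_le a hN (x := π) (y := y) (by rw [abs_of_pos hpi]) hy1
    · exact hB π y (by rw [abs_of_pos hpi]) hy1
  have h1 : ‖∫ x in (-π)..π, Ea a N (x + (1 / N : ℝ) * Complex.I) *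
        f (x + (1 / N : ℝ) * Complex.I) * kr N (x + (1 / N : ℝ) * Complex.I)‖ ≤
        K * B * |π - -π| := by
    refine intervalIntegral.norm_integral_le_of_norm_le_const ?_
    intro x hx
    rw [Set.uIoc_of_le (by linarith)] at hx
    have hx1 : |x| ≤ π := abs_le.2 ⟨hx.1.le, hx.2⟩
    refine key _ _ _ (norm_Ea_le a hN hx1 ?_) ?_ (norm_kr_hor hN x)
    · rw [abs_of_pos hh0]
    · exact hB x (1 / N) hx1 (by rw [abs_of_pos hh0])
  have hI : ∀ z : ℂ, ‖Complex.I * z‖ = ‖z‖ := by intro z; rw [norm_mul, Complex.norm_I, one_mul]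
  unfold LI upp
  refine (norm_sub_le _ _).trans ?_
  have t1 := norm_add_le (Complex.I * (∫ y in (0:ℝ)..(1 / N), Ea a N (-π + y * Complex.I) *
        f (-π + y * Complex.I) * kr N (-π + y * Complex.I)))
      (∫ x in (-π)..π, Ea a N (x + (1 / N : ℝ) * Complex.I) *
        f (x + (1 / N : ℝ) * Complex.I) * kr N (x + (1 / N : ℝ) * Complex.I))
  rw [hI] at t1
  rw [hI]
  rw [sub_zero, abs_of_pos hh0] at v1 v2
  rw [abs_of_nonneg (by linarith)] at h1
  have hKB : 0 ≤ K * B := by positivity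
  have m1 : K * B * (1 / N) ≤ K * B * 1 := by gcongr
  have m2 : K * B * (π - -π) = K * B * (2 * π) := by ring
  have m3 : K * (2 + 2 * π) * B = K * B * 1 + K * B * (2 * π) + K * B * 1 := by ring
  rw [m2] at h1
  rw [m3]
  linarith

theorem LI_sub (a : ℤ) {N : ℕ} (hN : 1 ≤ N) {f g : ℂ → ℂ} (hf : Differentiable ℂ f)
    (hg : Differentiable ℂ g) : LI a N (fun w => f w - g w) = LI a N f - LI a N g := by
  have h := LI_lin a hN (Bool) univ (fun b => if b then 1 else -1) (fun b => if b then f else g)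
    (by intro b; cases b <;> simp [hf, hg])
  have e : (fun w => ∑ i : Bool, (if i then (1 : ℂ) else -1) * (if i then f else g) w) =
      fun w => f w - g w := by
    funext w
    rw [Fintype.sum_bool]
    simp
    ring
  rw [e, Fintype.sum_bool] at h
  rw [h]
  simp
  ring

/-- the iterated integral is entire in each variable -/
theorem itI_diff (a : ℕ → ℤ) {N n j : ℕ} (hN : 1 ≤ N) (hj : j ≤ n) {f : (ℕ → ℂ) → ℂ}
    (hf : Sep n f) (ψ : ℕ → ℂ) (i : ℕ) :
    Differentiable ℂ (fun w => itI a N j f (Function.update ψ i w)) := by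
  rw [itI_eq]
  exact (itG_sep (fun j => LI_lin (a j) hN) hf hj).diff ψ i

theorem itI_sub (a : ℕ → ℤ) {N n : ℕ} (hN : 1 ≤ N) {f g : (ℕ → ℂ) → ℂ} (hf : Sep n f)
    (hg : Sep n g) (j : ℕ) (hj : j ≤ n) (ψ : ℕ → ℂ) :
    itI a N j (fun ψ => f ψ - g ψ) ψ = itI a N j f ψ - itI a N j g ψ := by
  induction j generalizing ψ with
  | zero => rfl
  | succ j ih =>
    have e : ∀ h : (ℕ → ℂ) → ℂ, itI a N (j + 1) h ψ =
      LI (a j) N (fun w => itI a N j h (Function.update ψ j w)) := fun h => rfl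
    rw [e, e, e, ← LI_sub (a j) hN (itI_diff a hN (by omega) hf ψ j)
      (itI_diff a hN (by omega) hg ψ j)]
    congr 1
    funext w
    exact ih (by omega) _

theorem itI_bd (a : ℕ → ℤ) (n j : ℕ) (hj : j ≤ n) : ∃ C : ℝ, 0 < C ∧ ∀ N : ℕ, 1 ≤ N →
    ∀ (f : (ℕ → ℂ) → ℂ) (B : ℝ), Sep n f →
      (∀ ψ : ℕ → ℂ, (∀ j < n, |(ψ j).re| ≤ π ∧ |(ψ j).im| ≤ 1 / N) → ‖f ψ‖ ≤ B) →
      ∀ ψ : ℕ → ℂ, (∀ j < n, |(ψ j).re| ≤ π ∧ |(ψ j).im| ≤ 1 / N) → ‖itI a N j f ψ‖ ≤ C * B := by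
  induction j with
  | zero =>
    refine ⟨1, one_pos, fun N hN f B hf hb ψ hψ => ?_⟩
    simp only [itI, one_mul]
    exact hb ψ hψ
  | succ j ih =>
    obtain ⟨C, hC, ih⟩ := ih (by omega)
    obtain ⟨D, hD, hU⟩ := LI_bd (a j)
    refine ⟨D * C, by positivity, fun N hN f B hf hb ψ hψ => ?_⟩
    have hjn : j < n := by omega
    have hup : ∀ w : ℂ, |w.re| ≤ π → |w.im| ≤ 1 / N →
        ∀ i < n, |(Function.update ψ j w i).re| ≤ π ∧ |(Function.update ψ j w i).im| ≤ 1 / N := by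
      intro w h1 h2 i hi
      by_cases hij : i = j
      · subst hij
        rw [Function.update_self]
        exact ⟨h1, h2⟩
      · rw [Function.update_of_ne hij]
        exact hψ i hi
    have hre : ∀ x y : ℝ, ((x : ℂ) + y * Complex.I).re = x := fun x y => by simp
    have him : ∀ x y : ℝ, ((x : ℂ) + y * Complex.I).im = y := fun x y => by simp
    have e1 : itI a N (j + 1) f ψ = LI (a j) N (fun w => itI a N j f (Function.update ψ j w)) := rfl
    rw [e1, mul_assoc]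
    refine hU N hN _ (C * B) (itI_diff a hN (by omega) hf ψ j).continuous fun x y hx hy => ?_
    exact ih N hN f B hf hb _ (hup _ (by rwa [hre]) (by rwa [him]))

/-- differences of products -/
theorem prod_diff (B B' : ℝ) (hB : 0 ≤ B) (hB' : 0 ≤ B') (f g : ℕ → ℂ) (m : ℕ)
    (hf : ∀ j < m + 1, ‖f j‖ ≤ B) (hg : ∀ j < m + 1, ‖g j‖ ≤ B)
    (hd : ∀ j < m + 1, ‖f j - g j‖ ≤ B') :
    ‖∏ j ∈ range (m + 1), f j - ∏ j ∈ range (m + 1), g j‖ ≤ (m + 1) * B ^ m * B' := by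
  induction m with
  | zero =>
    simp only [zero_add, Finset.prod_range_one, pow_zero, Nat.cast_zero, one_mul]
    exact hd 0 (by omega)
  | succ m ih =>
    have ih := ih (fun j hj => hf j (by omega)) (fun j hj => hg j (by omega))
      (fun j hj => hd j (by omega))
    rw [Finset.prod_range_succ f (m + 1), Finset.prod_range_succ g (m + 1)]
    have e : (∏ j ∈ range (m + 1), f j) * f (m + 1) - (∏ j ∈ range (m + 1), g j) * g (m + 1) =
        (∏ j ∈ range (m + 1), f j) * (f (m + 1) - g (m + 1)) +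
        (∏ j ∈ range (m + 1), f j - ∏ j ∈ range (m + 1), g j) * g (m + 1) := by ring
    rw [e]
    refine (norm_add_le _ _).trans ?_
    rw [norm_mul, norm_mul, norm_prod]
    have h1 : ∏ j ∈ range (m + 1), ‖f j‖ ≤ B ^ (m + 1) := by
      calc ∏ j ∈ range (m + 1), ‖f j‖ ≤ ∏ _j ∈ range (m + 1), B :=
            Finset.prod_le_prod (fun _ _ => norm_nonneg _) fun j hj => by
              rw [Finset.mem_range] at hj
              exact hf j (by omega)
        _ = B ^ (m + 1) := by rw [Finset.prod_const, Finset.card_range]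
    have h2 : (∏ j ∈ range (m + 1), ‖f j‖) * ‖f (m + 1) - g (m + 1)‖ ≤ B ^ (m + 1) * B' := by
      gcongr
      exact hd (m + 1) (by omega)
    have h3 : ‖∏ j ∈ range (m + 1), f j - ∏ j ∈ range (m + 1), g j‖ * ‖g (m + 1)‖ ≤
        ((m + 1) * B ^ m * B') * B := by
      gcongr
      exact hg (m + 1) (by omega)
    have e2 : (((m + 1 : ℕ) : ℝ) + 1) * B ^ (m + 1) * B' =
        B ^ (m + 1) * B' + ((m + 1) * B ^ m * B') * B := by
      push_cast
      ring
    rw [e2]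
    linarith

theorem sep_kh {n i j : ℕ} (N : ℕ) (χ : ℂ) (hi : i < n) (hj : j < n) :
    Sep n (fun ψ => kh N (ψ i) (ψ j) χ) := by
  unfold kh
  refine Sep.sum _ fun d _ => ?_
  have h1 := (Sep.var (n := n) hi (Pool.Agent.W398.HT.Rp_diff N d)).mul
    (Sep.var (n := n) hj (Pool.Agent.W398.HT.Rp_diff N d))
  have h2 := h1.mul (Sep.const (n := n) (Tg N d χ / (Sd N d : ℂ) ^ 2))
  have e : (fun ψ : ℕ → ℂ => Rp N d (ψ i) * Rp N d (ψ j) * Tg N d χ / (Sd N d : ℂ) ^ 2) =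
      fun ψ => Rp N d (ψ i) * Rp N d (ψ j) * (Tg N d χ / (Sd N d : ℂ) ^ 2) := by
    funext ψ
    ring
  rw [e]
  exact h2

theorem sep_kF {n i j : ℕ} (N : ℕ) (χ : ℂ) (hi : i < n) (hj : j < n) :
    Sep n (fun ψ => kF N (ψ i) (ψ j) χ) := by
  unfold kF
  refine Sep.sum _ fun d _ => ?_
  have h1 := (Sep.var (n := n) hi (Pool.Agent.W398.HT.Rp_diff N d)).mul
    (Sep.var (n := n) hj (Pool.Agent.W398.HT.Rp_diff N d))
  have h2 := h1.mul (Sep.const (n := n) (Tg N 0 χ / ∏ t ∈ Ioc 0 d, Ph N χ t))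
  have e : (fun ψ : ℕ → ℂ => Rp N d (ψ i) * Rp N d (ψ j) * Tg N 0 χ / ∏ t ∈ Ioc 0 d, Ph N χ t) =
      fun ψ => Rp N d (ψ i) * Rp N d (ψ j) * (Tg N 0 χ / ∏ t ∈ Ioc 0 d, Ph N χ t) := by
    funext ψ
    ring
  rw [e]
  exact h2

theorem sep_Wk {n : ℕ} (N : ℕ) (χ : ℂ) (hn : 0 < n) : Sep n (Wk n N χ) := by
  have e : Wk n N χ = fun ψ => ∏ j ∈ range n, kh N (ψ j) (ψ ((j + 1) % n)) χ := rfl
  rw [e]
  refine Sep.prod _ fun j hj => ?_
  rw [Finset.mem_range] at hj
  exact sep_kh N χ hj (Nat.mod_lt _ hn)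

theorem sep_WkF {n : ℕ} (N : ℕ) (χ : ℂ) (hn : 0 < n) : Sep n (WkF n N χ) := by
  have e : WkF n N χ = fun ψ => ∏ j ∈ range n, kF N (ψ j) (ψ ((j + 1) % n)) χ := rfl
  rw [e]
  refine Sep.prod _ fun j hj => ?_
  rw [Finset.mem_range] at hj
  exact sep_kF N χ hj (Nat.mod_lt _ hn)

/-- TFB -/
theorem tfb : S_TFB := by
  intro hKFF hKF ls hl
  have hk : 0 < ls.length := List.length_pos_iff.2 hl
  obtain ⟨m, hm⟩ : ∃ m, 2 * ls.length = m + 1 := ⟨2 * ls.length - 1, by omega⟩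
  obtain ⟨C, hC, hI⟩ := itI_bd (cw ls) (2 * ls.length) (2 * ls.length) le_rfl
  refine ⟨C * (m + 1) * 2 ^ (2 * ls.length), by positivity, ?_⟩
  intro N χ B B' hN hne hB' hBB hker
  have hN1 : (1 : ℝ) ≤ N := by exact_mod_cast (show 1 ≤ N by omega)
  have hB : 0 ≤ B := hB'.trans hBB
  have hn0 : 0 < 2 * ls.length := by omega
  have hpi := Real.pi_gt_three
  -- the factor
  have hfac : ‖((N : ℂ) / (2 * π)) ^ (2 * ls.length)‖ ≤ (N : ℝ) ^ (4 * ls.length) := by
    rw [norm_pow, norm_div, Complex.norm_natCast, Pool.Agent.W346.HT.norm_two_pi]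
    have h1 : (N : ℝ) / (2 * π) ≤ N := by
      rw [div_le_iff₀ (by linarith)]
      nlinarith
    calc ((N : ℝ) / (2 * π)) ^ (2 * ls.length) ≤ (N : ℝ) ^ (2 * ls.length) := by gcongr
      _ ≤ (N : ℝ) ^ (4 * ls.length) := pow_le_pow_right₀ hN1 (by omega)
  have h0 : ∀ j < 2 * ls.length, |((0 : ℕ → ℂ) j).re| ≤ π ∧ |((0 : ℕ → ℂ) j).im| ≤ 1 / (N : ℝ) := by
    intro j _
    simp only [Pi.zero_apply, Complex.zero_re, abs_zero, Complex.zero_im]
    exact ⟨by linarith, by positivity⟩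
  -- bounds of the kernels
  have kh_bd : ∀ ψ : ℕ → ℂ, (∀ j < 2 * ls.length, |(ψ j).re| ≤ π ∧ |(ψ j).im| ≤ 1 / (N : ℝ)) →
      ∀ j < 2 * ls.length, ‖kF N (ψ j) (ψ ((j + 1) % (2 * ls.length))) χ‖ ≤ 2 * B ∧
        ‖kh N (ψ j) (ψ ((j + 1) % (2 * ls.length))) χ‖ ≤ 2 * B ∧
        ‖kF N (ψ j) (ψ ((j + 1) % (2 * ls.length))) χ -
          kh N (ψ j) (ψ ((j + 1) % (2 * ls.length))) χ‖ ≤ B' := by
    intro ψ hψ j hj
    have a1 := hψ j hj
    have a2 := hψ _ (Nat.mod_lt (j + 1) hn0)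
    obtain ⟨b1, b2⟩ := hker (ψ j) (ψ ((j + 1) % (2 * ls.length))) a1.1 a1.2 a2.1 a2.2
    refine ⟨?_, by linarith, b2⟩
    have b3 := norm_add_le (kF N (ψ j) (ψ ((j + 1) % (2 * ls.length))) χ -
      kh N (ψ j) (ψ ((j + 1) % (2 * ls.length))) χ) (kh N (ψ j) (ψ ((j + 1) % (2 * ls.length))) χ)
    rw [sub_add_cancel] at b3
    linarith
  constructor
  · rw [hKFF N ls χ hN hl hne, norm_mul]
    have h1 : ‖itI (cw ls) N (2 * ls.length) (WkF (2 * ls.length) N χ) 0‖ ≤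
        C * (2 * B) ^ (2 * ls.length) := by
      refine hI N (by omega) _ _ (sep_WkF N χ hn0) (fun ψ hψ => ?_) 0 h0
      rw [WkF, norm_prod]
      calc ∏ j ∈ range (2 * ls.length), ‖kF N (ψ j) (ψ ((j + 1) % (2 * ls.length))) χ‖ ≤
            ∏ _j ∈ range (2 * ls.length), (2 * B) :=
            Finset.prod_le_prod (fun _ _ => norm_nonneg _) fun j hj => by
              rw [Finset.mem_range] at hj
              exact (kh_bd ψ hψ j hj).1
        _ = (2 * B) ^ (2 * ls.length) := by rw [Finset.prod_const, Finset.card_range]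
    calc ‖((N : ℂ) / (2 * π)) ^ (2 * ls.length)‖ *
          ‖itI (cw ls) N (2 * ls.length) (WkF (2 * ls.length) N χ) 0‖ ≤
          (N : ℝ) ^ (4 * ls.length) * (C * (2 * B) ^ (2 * ls.length)) := by gcongr
      _ = C * 1 * 2 ^ (2 * ls.length) * (N : ℝ) ^ (4 * ls.length) * B ^ (2 * ls.length) := by
          rw [mul_pow]
          ring
      _ ≤ C * (m + 1) * 2 ^ (2 * ls.length) * (N : ℝ) ^ (4 * ls.length) * B ^ (2 * ls.length) := by
          gcongr
          have : (0 : ℝ) ≤ m := Nat.cast_nonneg m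
          linarith
  · rw [hKFF N ls χ hN hl hne, hKF N ls χ hN hl, XN, ← mul_sub,
      ← itI_sub (cw ls) (show 1 ≤ N by omega) (sep_WkF N χ hn0) (sep_Wk N χ hn0) _ le_rfl 0,
      norm_mul]
    have hm1 : 2 * ls.length - 1 = m := by omega
    rw [hm1]
    have hsep : Sep (2 * ls.length)
        (fun ψ => WkF (2 * ls.length) N χ ψ - Wk (2 * ls.length) N χ ψ) := by
      have h1 := (sep_WkF N χ hn0).add ((Sep.const (n := 2 * ls.length) (-1)).mul (sep_Wk N χ hn0))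
      have e : (fun ψ => WkF (2 * ls.length) N χ ψ - Wk (2 * ls.length) N χ ψ) =
          fun ψ => WkF (2 * ls.length) N χ ψ + -1 * Wk (2 * ls.length) N χ ψ := by
        funext ψ
        ring
      rw [e]
      exact h1
    have h1 : ‖itI (cw ls) N (2 * ls.length)
        (fun ψ => WkF (2 * ls.length) N χ ψ - Wk (2 * ls.length) N χ ψ) 0‖ ≤
        C * ((m + 1) * (2 * B) ^ m * B') := by
      refine hI N (by omega) _ _ hsep (fun ψ hψ => ?_) 0 h0
      have hk := kh_bd ψ hψ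
      rw [WkF, Wk]
      have := prod_diff (2 * B) B' (by linarith) hB'
        (fun j => kF N (ψ j) (ψ ((j + 1) % (2 * ls.length))) χ)
        (fun j => kh N (ψ j) (ψ ((j + 1) % (2 * ls.length))) χ) m
        (fun j hj => (hk j (by omega)).1) (fun j hj => (hk j (by omega)).2.1)
        (fun j hj => (hk j (by omega)).2.2)
      rw [← hm] at this
      exact this
    calc ‖((N : ℂ) / (2 * π)) ^ (2 * ls.length)‖ * ‖itI (cw ls) N (2 * ls.length)
            (fun ψ => WkF (2 * ls.length) N χ ψ - Wk (2 * ls.length) N χ ψ) 0‖ ≤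
          (N : ℝ) ^ (4 * ls.length) * (C * ((m + 1) * (2 * B) ^ m * B')) := by gcongr
      _ = C * (m + 1) * 2 ^ m * (N : ℝ) ^ (4 * ls.length) * B ^ m * B' := by
          rw [mul_pow]
          ring
      _ ≤ C * (m + 1) * 2 ^ (2 * ls.length) * (N : ℝ) ^ (4 * ls.length) * B ^ m * B' := by
          have h2 : (2 : ℝ) ^ m ≤ 2 ^ (2 * ls.length) :=
            pow_le_pow_right₀ one_le_two (by omega)
          gcongr

end Pool.Agent.Y691.CG
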