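import Pool.Agent.Y472.G.Defs
import Pool.Agent.Y590.CB.KF

/-!
# CB3-G-KFF: the trace in terms of the full kernel

`kff : Pool.Agent.Y472.S_KFF`.  Adapted from `Pool.Agent.Y590.CB.KF` (the truncated case).
-/

set_option autoImplicit false
set_option maxHeartbeats 400000

namespace Pool.Agent.Y691.CG

open Finset MeasureTheory
open Pool.Agent.W711.HT Pool.Agent.Y472 Pool.Agent.Y590.CB
open Pool.Agent.Y481 (itI wts cw)
open Pool.Agent.Y721.VC (Pr Pr_congr Pr_update trace_lin Pr_list)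
open scoped Real

/-! ### the diagonal weights -/

/-- the weights of the full kernel -/
noncomputable def Df (N : ℕ) (χ : ℂ) (d : ℕ) : ℂ := Tg N 0 χ / ∏ t ∈ Ioc 0 d, Ph N χ t

/-- the matrix of a twist region -/
noncomputable def Mf (N : ℕ) (χ : ℂ) (a : ℤ) : Matrix (Fin N) (Fin N) ℂ :=
  fun x y => Uc N a x y * Df N χ y

/-- the rank one matrix of a vertex -/
noncomputable def Af (N : ℕ) (χ ψ : ℂ) : Matrix (Fin N) (Fin N) ℂ :=
  Matrix.vecMulVec (fun x => Rp N x ψ) (fun y => Rp N y ψ * Df N χ y)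

theorem kF_eq (N : ℕ) (ψ ψ' χ : ℂ) :
    kF N ψ ψ' χ = ∑ t : Fin N, Rp N t ψ * Df N χ t * Rp N t ψ' := by
  rw [← Finset.sum_range (fun t => Rp N t ψ * Df N χ t * Rp N t ψ'), kF]
  refine Finset.sum_congr rfl fun d _ => ?_
  rw [Df]
  ring

theorem Af_mul (N : ℕ) (χ ψ₀ ψ ψ' : ℂ) :
    Matrix.vecMulVec (fun x : Fin N => Rp N x ψ₀) (fun y : Fin N => Rp N y ψ * Df N χ y) *
      Af N χ ψ' = kF N ψ ψ' χ • Matrix.vecMulVec (fun x : Fin N => Rp N x ψ₀)
        (fun y : Fin N => Rp N y ψ' * Df N χ y) := by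
  ext x y
  rw [Matrix.mul_apply, Matrix.smul_apply, Matrix.vecMulVec_apply, kF_eq,
    smul_eq_mul, Finset.sum_mul]
  refine Finset.sum_congr rfl fun t _ => ?_
  rw [Af, Matrix.vecMulVec_apply, Matrix.vecMulVec_apply]
  ring

theorem Pr_Af (N : ℕ) (χ : ℂ) (ψ : ℕ → ℂ) (m : ℕ) :
    Pr (fun i => Af N χ (ψ i)) (m + 1) = (∏ j ∈ range m, kF N (ψ j) (ψ (j + 1)) χ) •
      Matrix.vecMulVec (fun x : Fin N => Rp N x (ψ 0))
        (fun y : Fin N => Rp N y (ψ m) * Df N χ y) := by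
  induction m with
  | zero =>
    simp only [Pr, one_mul, Finset.range_zero, Finset.prod_empty, one_smul, Af]
  | succ m ih =>
    rw [Pr, ih, Matrix.smul_mul, Af_mul, smul_smul, Finset.prod_range_succ]

theorem trace_Af (N : ℕ) (χ : ℂ) (ψ : ℕ → ℂ) (n : ℕ) (hn : 1 ≤ n) :
    (Pr (fun i => Af N χ (ψ i)) n).trace = WkF n N χ ψ := by
  obtain ⟨m, rfl⟩ : ∃ m, n = m + 1 := ⟨n - 1, by omega⟩
  rw [Pr_Af, Matrix.trace_smul, WkF, Finset.prod_range_succ, Nat.mod_self, smul_eq_mul]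
  congr 1
  · refine Finset.prod_congr rfl fun j hj => ?_
    rw [Finset.mem_range] at hj
    rw [Nat.mod_eq_of_lt (by omega)]
  · rw [Matrix.trace, kF_eq]
    refine Finset.sum_congr rfl fun x _ => ?_
    rw [Matrix.diag_apply, Matrix.vecMulVec_apply]
    ring

/-- the factors of the product after integrating the variables number `< j` -/
noncomputable def Fc (a : ℕ → ℤ) (N : ℕ) (χ : ℂ) (j : ℕ) (ψ : ℕ → ℂ) (i : ℕ) :
    Matrix (Fin N) (Fin N) ℂ := if i < j then Mf N χ (a i) else Af N χ (ψ i)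

theorem itI_Fc (a : ℕ → ℤ) (N n : ℕ) (χ : ℂ) (hN : 1 ≤ N) (hn : 1 ≤ n) (j : ℕ) (hj : j ≤ n)
    (ψ : ℕ → ℂ) :
    itI a N j (WkF n N χ) ψ = (Pr (Fc a N χ j ψ) n).trace := by
  induction j generalizing ψ with
  | zero =>
    simp only [itI]
    rw [← trace_Af N χ ψ n hn]
    congr 1
  | succ j ih =>
    simp only [itI]
    have hup : ∀ w : ℂ, Fc a N χ j (Function.update ψ j w) =
        Function.update (Fc a N χ (j + 1) ψ) j (Af N χ w) := by
      intro w
      funext i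
      rcases lt_trichotomy i j with h | h | h
      · rw [Function.update_of_ne (by omega)]
        simp only [Fc]
        rw [if_pos h, if_pos (by omega)]
      · subst h
        rw [Function.update_self]
        simp only [Fc]
        rw [if_neg (by omega), Function.update_self]
      · rw [Function.update_of_ne (by omega)]
        simp only [Fc]
        rw [if_neg (by omega), if_neg (by omega), Function.update_of_ne (by omega)]
    obtain ⟨P, S, h⟩ := Pr_update (Fc a N χ (j + 1) ψ) j n (by omega)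
    obtain ⟨Q, hQ0⟩ := trace_lin P S
    have hQ : ∀ M : Matrix (Fin N) (Fin N) ℂ,
        (Pr (Function.update (Fc a N χ (j + 1) ψ) j M) n).trace =
          ∑ p : Fin N × Fin N, Q p.1 p.2 * M p.1 p.2 := fun M => by rw [h M, hQ0 M]
    have e1 : ∀ w, itI a N j (WkF n N χ) (Function.update ψ j w) =
        ∑ q : Fin N × Fin N,
          (Q q.1 q.2 * Df N χ q.2) * (Rp N (q.1 : ℕ) w * Rp N (q.2 : ℕ) w) := by
      intro w
      rw [ih (by omega), hup, hQ]
      refine Finset.sum_congr rfl fun p _ => ?_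
      rw [Af, Matrix.vecMulVec_apply]
      ring
    simp only [e1]
    rw [upp_lin' hN (a j) Finset.univ (fun q : Fin N × Fin N => Q q.1 q.2 * Df N χ q.2)
      (fun q => (q.1 : ℕ)) (fun q => (q.2 : ℕ))]
    have e2 : Fc a N χ (j + 1) ψ = Function.update (Fc a N χ (j + 1) ψ) j (Mf N χ (a j)) := by
      funext i
      by_cases h : i = j
      · subst h
        rw [Function.update_self]
        simp only [Fc]
        rw [if_pos (by omega)]
      · rw [Function.update_of_ne h]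
    rw [e2, hQ]
    refine Finset.sum_congr rfl fun p _ => ?_
    rw [Mf]
    ring

/-- the iterated integral is a trace -/
theorem XF_eq {N : ℕ} (hN : 1 ≤ N) (ls : List (ℤ × ℤ)) (hl : ls ≠ []) (χ : ℂ) :
    itI (cw ls) N (2 * ls.length) (WkF (2 * ls.length) N χ) 0 =
      ((ls.map fun q => Mf N χ q.1 * Mf N χ q.2).prod).trace := by
  have hn : 1 ≤ 2 * ls.length := by
    rcases ls with _ | ⟨x, l⟩
    · exact absurd rfl hl
    · simp only [List.length_cons]
      omega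
  rw [itI_Fc (cw ls) N (2 * ls.length) χ hN hn _ le_rfl 0, ← wts_prod ls (Mf N χ), ← Pr_list,
    wts_length]
  congr 1
  apply Pr_congr
  intro j hj
  simp only [Fc]
  rw [if_pos hj]
  rfl

/-! ### the reduction -/

/-- the diagonal matrix of the weights -/
noncomputable def Dmf (N : ℕ) (χ : ℂ) : Matrix (Fin N) (Fin N) ℂ :=
  Matrix.diagonal fun i : Fin N => Df N χ i

theorem Mf_eq (N : ℕ) (χ : ℂ) (a : ℤ) : Mf N χ a = Um N a * Dmf N χ := by
  ext x y
  rw [Dmf, Matrix.mul_diagonal]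
  rfl

theorem Ph_symm {N t : ℕ} (χ : ℂ) (hN : 0 < N) (ht : t ≤ N) : Ph N χ (N - t) = Ph N χ t := by
  rw [Ph_eq, Ph_eq, pc_symm χ hN ht, qc_symm hN ht]

/-- the products of `Ph` -/
theorem prod_PhF {N x y : ℕ} (hN : 2 ≤ N) (χ : ℂ) (hne : ∀ t : ℕ, 1 ≤ t → t < N → Ph N χ t ≠ 0)
    (hx : x < N) (hy : y ≤ N - 1 - x) :
    ∏ t ∈ Ioc y (N - 1 - x), Ph N χ t = (N : ℂ) ^ 2 * Df N χ y * Df N χ x := by
  have hP : ∀ d : ℕ, d < N → ∏ t ∈ Ioc 0 d, Ph N χ t ≠ 0 := by
    intro d hd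
    refine Finset.prod_ne_zero_iff.2 fun t ht => ?_
    rw [mem_Ioc] at ht
    exact hne t (by omega) (by omega)
  have h1 := Finset.prod_Ioc_consecutive (Ph N χ) (Nat.zero_le y) hy
  have h2 := Finset.prod_Ioc_consecutive (Ph N χ) (Nat.zero_le (N - 1 - x))
    (show N - 1 - x ≤ N - 1 - 0 by omega)
  have h3 := refl_prod (N := N) (d := 0) (n := x) (Nat.zero_le x) hx (Ph N χ)
    (fun t ht => Ph_symm χ (by omega) ht)
  have h4 := prod_Ph (N := N) (y := 0) (d := 0) hN χ (Nat.zero_le _) (Nat.zero_le _)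
  have hS : Sd N 0 = 1 := by simp [Sd]
  rw [hS, Complex.ofReal_one, one_pow, div_one] at h4
  rw [h3, h4] at h2
  rw [Df, Df]
  have p1 := hP y (by omega)
  have p2 := hP x hx
  have p3 := hP (N - 1 - x) (by omega)
  field_simp
  rw [← h1] at h2
  linear_combination h2

/-- the integrals with too many factors vanish -/
theorem Uc_zero {N x y : ℕ} (a : ℤ) (hx : x < N) (h : N - 1 - x < y) : Uc N a x y = 0 := by
  have h1 := Pool.Agent.W346.HT.GG_zero (N := N) (n := N - 1 - x) (l := y) (by omega) h a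
  have e : N - 1 - (N - 1 - x) = x := by omega
  rw [e] at h1
  rw [← h1]
  unfold Uc Pool.Agent.W346.HT.GG
  congr 1
  funext ψ
  ring

theorem Ar_eq (N : ℕ) (a : ℤ) : Ar N a = (1 / (2 * π) : ℂ) • (Zg N * Um N a * Zg N) := by
  ext x y
  simp only [Zg, Matrix.diagonal_mul, Matrix.mul_diagonal, Matrix.smul_apply, smul_eq_mul]
  have hxN := x.isLt
  by_cases h : (y : ℕ) ≤ N - 1 - (x : ℕ)
  · have hle : y ≤ Fin.revPerm x := by
      rw [Fin.le_def, rev_val]
      exact h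
    have : Ar N a x y = cJ N a y (N - 1 - (x : ℕ)) := by
      rw [Ar, Matrix.submatrix_apply, MA0, id, if_pos hle, rev_val]
    rw [this, cJ_rev N a hxN, Um_apply, pow_add]
    ring
  · have hle : ¬ y ≤ Fin.revPerm x := by
      rw [Fin.le_def, rev_val]
      exact h
    have : Ar N a x y = 0 := by
      rw [Ar, Matrix.submatrix_apply, MA0, id, if_neg hle]
    rw [this, Um_apply, Uc_zero a hxN (by omega)]
    ring

theorem Br_eq {N : ℕ} (hN : 2 ≤ N) (χ : ℂ) (hne : ∀ t : ℕ, 1 ≤ t → t < N → Ph N χ t ≠ 0) (b : ℤ) :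
    Br N χ b = ((N : ℂ) ^ 2 / (2 * π) : ℂ) • (Zg N * (Dmf N χ * Um N b * Dmf N χ) * Zg N) := by
  ext y x
  simp only [Zg, Dmf, Matrix.diagonal_mul, Matrix.mul_diagonal, Matrix.smul_apply, smul_eq_mul]
  have hxN := x.isLt
  by_cases h : (y : ℕ) ≤ N - 1 - (x : ℕ)
  · have hle : y ≤ Fin.revPerm x := by
      rw [Fin.le_def, rev_val]
      exact h
    have : Br N χ b y x = (∏ t ∈ Ioc (y : ℕ) (N - 1 - (x : ℕ)), Ph N χ t) *
        cJ N b y (N - 1 - (x : ℕ)) := by
      rw [Br, Matrix.submatrix_apply, MB0, id, if_pos hle, rev_val]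
    rw [this, cJ_rev N b hxN, prod_PhF hN χ hne hxN h, Um_apply, pow_add, Uc_symm]
    ring
  · have hle : ¬ y ≤ Fin.revPerm x := by
      rw [Fin.le_def, rev_val]
      exact h
    have : Br N χ b y x = 0 := by
      rw [Br, Matrix.submatrix_apply, MB0, id, if_neg hle]
    rw [this, Um_apply, Uc_symm, Uc_zero b hxN (by omega)]
    ring

/-- KFF -/
theorem kff : S_KFF := by
  intro N ls χ hN hl hne
  rw [XF_eq (by omega) ls hl χ, Tf, ← trace_sub Fin.revPerm, ← lst_sub]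
  have e1 : ∀ q : ℤ × ℤ, (MA0 N q.1 * MB0 N χ q.2).submatrix Fin.revPerm Fin.revPerm =
      Ar N q.1 * Br N χ q.2 := by
    intro q
    rw [Ar, Br, ← Matrix.submatrix_mul_equiv _ _ _ (Equiv.refl _) _]
    rfl
  simp only [e1]
  have e2 : ∀ q : ℤ × ℤ, Ar N q.1 * Br N χ q.2 =
      ((N : ℂ) / (2 * π)) ^ 2 • (Zg N * (Mf N χ q.1 * Mf N χ q.2) * Zg N) := by
    intro q
    rw [Ar_eq, Br_eq hN χ hne, Matrix.smul_mul, Matrix.mul_smul, smul_smul, Mf_eq, Mf_eq]
    congr 1
    · ring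
    · calc Zg N * Um N q.1 * Zg N * (Zg N * (Dmf N χ * Um N q.2 * Dmf N χ) * Zg N) =
          Zg N * Um N q.1 * (Zg N * Zg N) * (Dmf N χ * Um N q.2 * Dmf N χ) * Zg N := by
            simp only [mul_assoc]
        _ = _ := by
            rw [Zg_sq, mul_one]
            simp only [mul_assoc]
  simp only [e2]
  rw [lst_smul (((N : ℂ) / (2 * π)) ^ 2)
    (fun q : ℤ × ℤ => Zg N * (Mf N χ q.1 * Mf N χ q.2) * Zg N) ls, Matrix.trace_smul,
    ← pow_mul, smul_eq_mul]
  congr 1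
  refine lst3 (Zg N) (Zg N) (fun q : ℤ × ℤ => Mf N χ q.1 * Mf N χ q.2) ls hl ?_
  intro q
  rw [Zg_sq, mul_one]

end Pool.Agent.Y691.CG
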